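import Pool.Agent.Helper70.MM.Goals

open MeasureTheory Set Metric
open scoped ENNReal Topology
open Pool.Agent.Results.MP_91ee6f_gt
open Pool.Agent.Helper70.MM

namespace Pool.Agent.Helper61.MM

lemma nontrivial_En {n : ℕ} (hn : 1 ≤ n) : Nontrivial (En n) := by
  have : Nonempty (Fin n) := ⟨⟨0, hn⟩⟩
  infer_instance

lemma toSphere_univ_ne_zero {n : ℕ} (hn : 1 ≤ n) :
    (volume : Measure (En n)).toSphere univ ≠ 0 := by
  have := nontrivial_En hn
  have h := Measure.toSphere_ne_zero (volume : Measure (En n))
  intro h0
  exact h (Measure.measure_univ_eq_zero.1 h0)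

lemma measurable_smul_sphere (n : ℕ) (s : ℝ) :
    Measurable (fun θ : sphere (0 : En n) 1 => s • (θ : En n)) := by fun_prop

lemma sphUnif_isProb {n : ℕ} (hn : 1 ≤ n) (s : ℝ) : IsProbabilityMeasure (sphUnif n s) := by
  constructor
  unfold sphUnif
  rw [Measure.smul_apply, Measure.map_apply (measurable_smul_sphere n s) MeasurableSet.univ,
    preimage_univ, smul_eq_mul]
  exact ENNReal.inv_mul_cancel (toSphere_univ_ne_zero hn) (measure_ne_top _ _)

lemma sphUnif_sphere_compl {n : ℕ} {s : ℝ} (hs : 0 ≤ s) :
    sphUnif n s (sphere (0 : En n) s)ᶜ = 0 := by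
  unfold sphUnif
  rw [Measure.smul_apply, Measure.map_apply (measurable_smul_sphere n s)
    isClosed_sphere.measurableSet.compl]
  have : (fun θ : sphere (0 : En n) 1 => s • (θ : En n)) ⁻¹' (sphere (0 : En n) s)ᶜ = ∅ := by
    rw [eq_empty_iff_forall_notMem]
    intro θ hθ
    apply hθ
    rw [mem_sphere_zero_iff_norm, norm_smul, norm_eq_of_mem_sphere θ, mul_one, Real.norm_eq_abs,
      abs_of_nonneg hs]
  rw [this, measure_empty, smul_zero]

theorem sph1 : SPH1 := by
  intro n hn s
  have hnt := nontrivial_En hn
  refine ⟨sphUnif_isProb hn s, fun hs => ?_, fun hs => ?_⟩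
  · have h := sphUnif_sphere_compl (n := n) hs
    rw [ae_iff]
    refine measure_mono_null ?_ h
    intro y hy hy'
    exact hy (mem_sphere_zero_iff_norm.1 hy')
  · apply Subset.antisymm
    · refine Measure.support_subset_of_isClosed isClosed_sphere ?_
      rw [mem_ae_iff]
      exact sphUnif_sphere_compl hs.le
    · intro x hx
      rw [Measure.support_eq_forall_isOpen]
      intro U hxU hU
      unfold sphUnif
      rw [Measure.smul_apply, Measure.map_apply (measurable_smul_sphere n s) hU.measurableSet,
        smul_eq_mul]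
      have hx' : ‖x‖ = s := by simpa using hx
      have hopen : IsOpen ((fun θ : sphere (0 : En n) 1 => s • (θ : En n)) ⁻¹' U) :=
        hU.preimage (by fun_prop)
      have hne : ((fun θ : sphere (0 : En n) 1 => s • (θ : En n)) ⁻¹' U).Nonempty := by
        refine ⟨⟨s⁻¹ • x, ?_⟩, ?_⟩
        · rw [mem_sphere_zero_iff_norm, norm_smul, hx', norm_inv, Real.norm_eq_abs,
            abs_of_pos hs, inv_mul_cancel₀ hs.ne']
        · simp only [mem_preimage, smul_smul, mul_inv_cancel₀ hs.ne', one_smul]
          exact hxU
      exact ENNReal.mul_pos (ENNReal.inv_ne_zero.2 (measure_ne_top _ _))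
        (hopen.measure_pos _ hne).ne'

lemma continuous_kernel_right {n : ℕ} (x : En n) :
    Continuous fun y : En n => Real.exp (-dist x y) := by
  fun_prop

lemma exp_neg_dist_bound {n : ℕ} (x y : En n) : ‖Real.exp (-dist x y)‖ ≤ 1 := by
  rw [Real.norm_eq_abs, abs_of_pos (Real.exp_pos _), Real.exp_le_one_iff]
  linarith [dist_nonneg (x := x) (y := y)]

lemma continuous_potential_En {n : ℕ} (μ : Measure (En n)) [IsFiniteMeasure μ] :
    Continuous (potential μ) := by
  refine continuous_of_dominated (bound := fun _ => 1) ?_ ?_ (integrable_const _) ?_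
  · intro x
    exact (continuous_kernel_right x).aestronglyMeasurable
  · intro x
    exact Filter.Eventually.of_forall fun y => exp_neg_dist_bound x y
  · exact Filter.Eventually.of_forall fun y => by fun_prop

lemma sphEnergy_eq {n : ℕ} (hn : 1 ≤ n) (h2 : SPH2) (R : ℝ) :
    sphEnergy n R = ∫ x, (∫ y, Real.exp (-dist (R • x) (R • y)) ∂(sphUnif n 1))
      ∂(sphUnif n 1) := by
  have hp := sphUnif_isProb hn 1
  have hpR := sphUnif_isProb hn R
  have hm : (sphUnif n 1).map (fun x => R • x) = sphUnif n R := by
    have := (h2 n 1).2 R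
    rwa [mul_one] at this
  have hmeas : Measurable (fun x : En n => R • x) := by fun_prop
  unfold sphEnergy
  have hc := continuous_potential_En (sphUnif n R)
  have step : ∫ x, potential (sphUnif n R) x ∂(sphUnif n R) =
      ∫ x, potential (sphUnif n R) (R • x) ∂(sphUnif n 1) := by
    conv_lhs => rw [← hm]
    rw [integral_map hmeas.aemeasurable]
    · rw [hm]
    · exact (continuous_potential_En _).aestronglyMeasurable
  rw [step]
  refine integral_congr_ae (Filter.Eventually.of_forall fun x => ?_)
  simp only
  unfold potential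
  conv_lhs => rw [← hm]
  rw [integral_map hmeas.aemeasurable]
  exact (continuous_kernel_right _).aestronglyMeasurable

/-- The inner integral as a function of the scale and the point. -/
noncomputable def inner1 (n : ℕ) (q : ℝ × En n) : ℝ :=
  ∫ y, Real.exp (-dist (q.1 • q.2) (q.1 • y)) ∂(sphUnif n 1)

lemma continuous_inner1 {n : ℕ} (hn : 1 ≤ n) : Continuous (inner1 n) := by
  have hp := sphUnif_isProb hn 1
  unfold inner1
  refine continuous_of_dominated (bound := fun _ => 1) ?_ ?_ (integrable_const _) ?_
  · intro q
    have : Continuous fun y : En n => Real.exp (-dist (q.1 • q.2) (q.1 • y)) := by fun_prop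
    exact this.aestronglyMeasurable
  · intro q
    exact Filter.Eventually.of_forall fun y => exp_neg_dist_bound _ _
  · exact Filter.Eventually.of_forall fun y => by fun_prop

lemma norm_inner1_le {n : ℕ} (hn : 1 ≤ n) (q : ℝ × En n) : ‖inner1 n q‖ ≤ 1 := by
  have hp := sphUnif_isProb hn 1
  unfold inner1
  have := norm_integral_le_of_norm_le_const (μ := sphUnif n 1) (C := 1)
    (f := fun y => Real.exp (-dist (q.1 • q.2) (q.1 • y)))
    (Filter.Eventually.of_forall fun y => exp_neg_dist_bound _ _)
  simpa using this

theorem th4 : SPH1 → SPH2 → MINP → TH4 := by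
  intro _ h2 _ n hn
  have hp := sphUnif_isProb hn 1
  have he : sphEnergy n = fun R => ∫ x, inner1 n (R, x) ∂(sphUnif n 1) :=
    funext (sphEnergy_eq hn h2)
  rw [he]
  apply Continuous.continuousOn
  have hin := continuous_inner1 hn
  refine continuous_of_dominated (bound := fun _ => 1) ?_ ?_ (integrable_const _) ?_
  · intro R
    exact (hin.comp (Continuous.prodMk_right R)).aestronglyMeasurable
  · intro R
    exact Filter.Eventually.of_forall fun x => norm_inner1_le hn _
  · exact Filter.Eventually.of_forall fun x => hin.comp (Continuous.prodMk_left x)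

end Pool.Agent.Helper61.MM
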